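import Pool.Agent.W626.FR.Stms
import Pool.Agent.W782.FG.Split

/-!
# Project FR (MP_0cd4b8_pr, helper626): task FR-N2
-/

namespace Pool.Agent.W914.FR

open FrogRec MeasureTheory ProbabilityTheory Filter FrogGW
open scoped ENNReal NNReal Classical Topology

lemma eps_pow (m : ℕ) (ε : ℝ≥0) (hε : 0 < ε) :
    ∃ C : ℝ≥0, ∀ v : ℝ≥0, (1 + v) ^ m ≤ (1 + ε) * v ^ m + C := by
  have h0 : Tendsto (fun v : ℝ≥0 => v⁻¹) atTop (𝓝 0) := by
    have := tendsto_inv_atTop_zero (𝕜 := ℝ)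
    rw [← NNReal.tendsto_coe]
    simp only [NNReal.coe_inv, NNReal.coe_zero]
    exact this.comp (NNReal.tendsto_coe_atTop.mpr tendsto_id)
  have h1 : Tendsto (fun v : ℝ≥0 => (1 + v⁻¹) ^ m) atTop (𝓝 ((1 + 0) ^ m)) :=
    (tendsto_const_nhds.add h0).pow m
  have h2 : ∀ᶠ v : ℝ≥0 in atTop, (1 + v⁻¹) ^ m < 1 + ε := by
    apply h1.eventually_lt_const
    simp only [add_zero, one_pow]
    exact lt_add_of_pos_right 1 hε
  obtain ⟨V, hV⟩ := eventually_atTop.mp h2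
  refine ⟨(1 + (V + 1)) ^ m, fun v => ?_⟩
  rcases le_total v (V + 1) with h | h
  · refine le_trans (pow_le_pow_left' (by gcongr) m) le_add_self
  · have hv : v ≠ 0 := by
      rintro rfl
      have : (V + 1 : ℝ≥0) ≤ 0 := h
      simp at this
    have h3 : (1 + v⁻¹) ^ m ≤ 1 + ε := (hV v (le_trans le_self_add h)).le
    have h4 : (1 + v) = (1 + v⁻¹) * v := by
      field_simp
      ring
    calc (1 + v) ^ m = (1 + v⁻¹) ^ m * v ^ m := by rw [h4, mul_pow]
      _ ≤ (1 + ε) * v ^ m := by gcongr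
      _ ≤ _ := le_self_add

/-- at least two indices with positive value -/
def Two {X : Type} (κ : X → ℝ≥0) (k : ℕ) (Y : ℕ → X) : Prop :=
  ∃ a < k, ∃ b < k, a ≠ b ∧ κ (Y a) ≠ 0 ∧ κ (Y b) ≠ 0

lemma pointwise {X : Type} (κ : X → ℝ≥0) (k m : ℕ) (hm : m ≠ 0) (Y : ℕ → X) :
    ((((∑ i ∈ Finset.range k, κ (Y i)) / (1 + ∑ i ∈ Finset.range k, κ (Y i)))⁻¹) ^ m : ℝ≥0) ≤
      (∑ i ∈ Finset.range k, if ∀ l < k, l ≠ i → κ (Y l) = 0 then
        (if κ (Y i) = 0 then 0 else (1 + (κ (Y i))⁻¹) ^ m) else 0) +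
      2 ^ m * (1 + if Two κ k Y then ((∑ i ∈ Finset.range k, κ (Y i))⁻¹) ^ m else 0) := by
  set S := ∑ i ∈ Finset.range k, κ (Y i) with hS
  by_cases h2 : Two κ k Y
  · rw [if_pos h2]
    refine le_trans ?_ le_add_self
    obtain ⟨a, ha, b, hb, hab, hna, hnb⟩ := h2
    have hS0 : S ≠ 0 := by
      intro h0
      rw [hS, Finset.sum_eq_zero_iff] at h0
      exact hna (h0 a (Finset.mem_range.mpr ha))
    have h3 : (S / (1 + S))⁻¹ = S⁻¹ + 1 := by
      rw [inv_div, add_div, div_self hS0, one_div]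
    rw [h3]
    rcases le_total S⁻¹ 1 with h | h
    · calc (S⁻¹ + 1) ^ m ≤ (1 + 1) ^ m := by gcongr
        _ = 2 ^ m * 1 := by norm_num
        _ ≤ _ := by gcongr; exact le_self_add
    · calc (S⁻¹ + 1) ^ m ≤ (S⁻¹ + S⁻¹) ^ m := by gcongr
        _ = 2 ^ m * (S⁻¹) ^ m := by rw [← two_mul, mul_pow]
        _ ≤ _ := by gcongr; exact le_add_self
  · rw [if_neg h2]
    by_cases h0 : S = 0
    · rw [h0]
      simp [hm]
    · have h1 : ∃ i < k, κ (Y i) ≠ 0 := by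
        by_contra hc
        push Not at hc
        exact h0 (Finset.sum_eq_zero fun i hi => hc i (Finset.mem_range.mp hi))
      obtain ⟨i, hi, hni⟩ := h1
      have ho : ∀ l < k, l ≠ i → κ (Y l) = 0 := by
        intro l hl hli
        by_contra hc
        exact h2 ⟨l, hl, i, hi, hli, hc, hni⟩
      have hSi : S = κ (Y i) := by
        rw [hS]
        exact Finset.sum_eq_single_of_mem i (Finset.mem_range.mpr hi)
          (fun b hb hbi => ho b (Finset.mem_range.mp hb) hbi)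
      refine le_trans ?_ le_self_add
      refine le_trans ?_ (Finset.single_le_sum (f := fun i => if ∀ l < k, l ≠ i → κ (Y l) = 0 then
        (if κ (Y i) = 0 then 0 else (1 + (κ (Y i))⁻¹) ^ m) else 0) (fun _ _ => zero_le)
        (Finset.mem_range.mpr hi))
      have h3 : (S / (1 + S))⁻¹ = 1 + (κ (Y i))⁻¹ := by
        rw [hSi, inv_div, add_div, div_self hni, one_div, add_comm]
      rw [h3]
      rw [if_pos ho, if_neg hni]

/-- generating function of the derivative -/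
noncomputable def F1 (p : Measure ℕ) (q : ℝ≥0∞) : ℝ≥0∞ :=
  ∑' k, p {k} * ((k : ℝ≥0∞) * q ^ (k - 1))

lemma F1_mono (p : Measure ℕ) {q q' : ℝ≥0∞} (h : q ≤ q') : F1 p q ≤ F1 p q' := by
  unfold F1
  gcongr

lemma mset_two {X : Type} [MeasurableSpace X] (κ : X → ℝ≥0) (hκ : Measurable κ) (k : ℕ) :
    MeasurableSet {Y : ℕ → X | Two κ k Y} := by
  have h : {Y : ℕ → X | Two κ k Y} = ⋃ a ∈ Set.Iio k, ⋃ b ∈ Set.Iio k,
      {Y : ℕ → X | a ≠ b ∧ κ (Y a) ≠ 0 ∧ κ (Y b) ≠ 0} := by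
    ext Y
    simp only [Two, Set.mem_ofPred_eq, Set.mem_iUnion, Set.mem_Iio, exists_prop]
  rw [h]
  refine MeasurableSet.biUnion (Set.to_countable _) fun a _ =>
    MeasurableSet.biUnion (Set.to_countable _) fun b _ => ?_
  have hz : MeasurableSet {x : ℝ≥0 | x ≠ 0} := (measurableSet_singleton 0).compl
  have h1 : MeasurableSet {Y : ℕ → X | κ (Y a) ≠ 0} := (hκ.comp (measurable_pi_apply a)) hz
  have h2 : MeasurableSet {Y : ℕ → X | κ (Y b) ≠ 0} := (hκ.comp (measurable_pi_apply b)) hz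
  exact (MeasurableSet.const _).inter (h1.inter h2)

theorem n2 (_hK : TaskKap) (hZ : TaskMeasZ) (hE : TaskEnv) (hS : TaskSing) (hP : TaskPair) :
    TaskN2 := by
  intro p _ hp j hj ⟨C, hC⟩
  obtain ⟨⟨z, hz1, hz2, hz3⟩, -, -, -⟩ := hE p hp
  change F1 p z < 1 at hz3
  have hmk : ∀ n, Measurable (kap n) := fun n =>
    hZ.1 (n + 1) ℝ≥0 (kap n) (fun Z Z' h => (hZ.2.1 n Z Z' h).1)
  set m : ℕ := 2 * j with hm
  have hm0 : m ≠ 0 := by omega
  set B : ℕ → ℝ≥0∞ := fun n => ∫⁻ Z, ((((kap n Z)⁻¹) ^ m : ℝ≥0) : ℝ≥0∞) ∂(GW p) with hB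
  -- choice of ε
  obtain ⟨ε, hε, ρ, hρ1, hρ⟩ : ∃ ε : ℝ≥0, 0 < ε ∧ ∃ ρ : ℝ≥0, ρ < 1 ∧
      F1 p z * ((1 + ε : ℝ≥0) : ℝ≥0∞) ≤ ρ := by
    obtain ⟨r, hr⟩ : ∃ r : ℝ≥0, (r : ℝ≥0∞) = F1 p z :=
      ⟨(F1 p z).toNNReal, ENNReal.coe_toNNReal hz3.ne_top⟩
    rw [← hr] at hz3 ⊢
    have hr1 : r < 1 := by exact_mod_cast hz3
    have hr2 : 0 < 1 - r := tsub_pos_of_lt hr1
    refine ⟨(1 - r) / 2, by positivity, (1 + r) / 2, ?_, ?_⟩
    · rw [div_lt_one (by norm_num)]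
      calc 1 + r < 1 + 1 := by gcongr
        _ = 2 := by norm_num
    · rw [← ENNReal.coe_mul, ENNReal.coe_le_coe]
      rw [← NNReal.coe_le_coe]
      push_cast [hr1.le]
      have h1 : (r : ℝ) < 1 := by exact_mod_cast hr1
      have h2 : (0 : ℝ) ≤ r := r.2
      nlinarith
  obtain ⟨C', hC'⟩ := eps_pow m ε hε
  -- the constant of the pairs
  have hz0 : (1 - z) ≠ 0 := (tsub_pos_of_lt hz1).ne'
  set P0 : ℝ≥0∞ := ((1 - z) ^ 2)⁻¹ * (C : ℝ≥0∞) ^ 2 with hP0
  have hP0t : P0 ≠ ∞ := by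
    refine ENNReal.mul_ne_top ?_ (by finiteness)
    rw [ENNReal.inv_ne_top]
    exact pow_ne_zero 2 hz0
  have hstep : ∀ n, B (n + 1) ≤ ρ * B n + (C' + 2 ^ m * (1 + P0)) := by
    intro n
    set q := GW p {Z | kap n Z = 0} with hq
    set f : Env → ℝ≥0∞ := fun Z => if kap n Z = 0 then 0 else
      (((1 + (kap n Z)⁻¹) ^ m : ℝ≥0) : ℝ≥0∞) with hf
    have hfm : Measurable f := by
      refine Measurable.ite ?_ measurable_const ?_
      · exact (hmk n) (measurableSet_singleton 0)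
      · exact measurable_coe_nnreal_ennreal.comp (((hmk n).inv.const_add 1).pow_const m)
    have hfi : ∫⁻ Z, f Z ∂(GW p) ≤ ((1 + ε : ℝ≥0) : ℝ≥0∞) * B n + C' := by
      calc ∫⁻ Z, f Z ∂(GW p) ≤ ∫⁻ Z, (((1 + ε : ℝ≥0) : ℝ≥0∞) *
            ((((kap n Z)⁻¹) ^ m : ℝ≥0) : ℝ≥0∞) + C') ∂(GW p) := by
            refine lintegral_mono fun Z => ?_
            simp only [hf]
            split_ifs with h
            · exact zero_le
            · rw [← ENNReal.coe_mul, ← ENNReal.coe_add, ENNReal.coe_le_coe]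
              exact hC' _
        _ = _ := by
            rw [lintegral_add_right _ measurable_const, lintegral_const_mul]
            · simp [hB]
            · exact measurable_coe_nnreal_ennreal.comp ((hmk n).inv.pow_const m)
    set G : ℕ × (ℕ → Env) → ℝ≥0∞ := fun t =>
      ((((∑ i ∈ Finset.range t.1, kap n (t.2 i)) / (1 + ∑ i ∈ Finset.range t.1, kap n (t.2 i)))⁻¹)
        ^ m : ℝ≥0) with hG
    have hsm : ∀ k, Measurable fun Y : ℕ → Env => ∑ i ∈ Finset.range k, kap n (Y i) := fun k =>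
      Finset.measurable_sum _ fun i _ => (hmk n).comp (measurable_pi_apply i)
    have hGm : Measurable G := by
      refine measurable_from_prod_countable_right fun k => ?_
      simp only [hG]
      exact measurable_coe_nnreal_ennreal.comp
        ((((hsm k).div ((hsm k).const_add 1)).inv).pow_const m)
    have h1 : B (n + 1) = ∫⁻ k, ∫⁻ Y, G (k, Y) ∂(Measure.infinitePi fun _ : ℕ => GW p) ∂p := by
      rw [← lintegral_prod _ hGm.aemeasurable, ← (Pool.Agent.W782.FG.tree p).lintegral_comp hGm]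
      rfl
    rw [h1]
    set Q : ℕ → (ℕ → Env) → ℝ≥0∞ := fun k Y =>
      if ∃ a < k, ∃ b < k, a ≠ b ∧ kap n (Y a) ≠ 0 ∧ kap n (Y b) ≠ 0 then
          ((((∑ l ∈ Finset.range k, kap n (Y l))⁻¹) ^ m : ℝ≥0) : ℝ≥0∞) else 0 with hQ
    have hQm : ∀ k, Measurable (Q k) := by
      intro k
      refine Measurable.ite (mset_two (kap n) (hmk n) k) ?_ measurable_const
      exact measurable_coe_nnreal_ennreal.comp (((hsm k).inv).pow_const m)
    have h2 : ∀ k Y, G (k, Y) ≤ (∑ i ∈ Finset.range k,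
        (if ∀ j < k, j ≠ i → kap n (Y j) = 0 then f (Y i) else 0)) + 2 ^ m * (1 + Q k Y) := by
      intro k Y
      have := ENNReal.coe_le_coe.mpr (pointwise (kap n) k m hm0 Y)
      refine this.trans (le_of_eq ?_)
      rw [ENNReal.coe_add, ENNReal.coe_mul, ENNReal.coe_add, ENNReal.ofNNReal_finsetSum]
      congr 1
      · refine Finset.sum_congr rfl fun i _ => ?_
        simp only [hf]
        split_ifs <;> simp
      · by_cases h9 : Two (kap n) k Y
        · have hQ2 : Q k Y = ((((∑ l ∈ Finset.range k, kap n (Y l))⁻¹) ^ m : ℝ≥0) : ℝ≥0∞) :=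
            if_pos h9
          rw [hQ2, if_pos h9]
          simp
        · have hQ2 : Q k Y = 0 := if_neg h9
          rw [hQ2, if_neg h9]
          simp
    have h3 : ∫⁻ k, ∫⁻ Y, G (k, Y) ∂(Measure.infinitePi fun _ : ℕ => GW p) ∂p ≤
        (∫⁻ k, ∫⁻ Y, ∑ i ∈ Finset.range k,
        (if ∀ j < k, j ≠ i → kap n (Y j) = 0 then f (Y i) else 0)
          ∂(Measure.infinitePi fun _ : ℕ => GW p) ∂p) +
        2 ^ m * (1 + ∫⁻ k, ∫⁻ Y, Q k Y ∂(Measure.infinitePi fun _ : ℕ => GW p) ∂p) := by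
      have h4 : ∀ k, ∫⁻ Y, G (k, Y) ∂(Measure.infinitePi fun _ : ℕ => GW p) ≤
          (∫⁻ Y, ∑ i ∈ Finset.range k,
            (if ∀ j < k, j ≠ i → kap n (Y j) = 0 then f (Y i) else 0)
            ∂(Measure.infinitePi fun _ : ℕ => GW p)) +
          2 ^ m * (1 + ∫⁻ Y, Q k Y ∂(Measure.infinitePi fun _ : ℕ => GW p)) := by
        intro k
        refine (lintegral_mono (h2 k)).trans (le_of_eq ?_)
        rw [lintegral_add_right _ (((hQm k).const_add 1).const_mul _),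
          lintegral_const_mul _ ((hQm k).const_add 1), lintegral_add_left measurable_const]
        simp
      refine (lintegral_mono h4).trans (le_of_eq ?_)
      rw [lintegral_add_right _ Measurable.of_discrete,
          lintegral_const_mul _ Measurable.of_discrete, lintegral_add_left measurable_const]
      simp
    refine h3.trans ?_
    rw [hS Env (GW p) (kap n) p f (hmk n) hfm]
    have h5 : ∫⁻ k, ∫⁻ Y, Q k Y ∂(Measure.infinitePi fun _ : ℕ => GW p) ∂p ≤ P0 := by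
      have h6 := hP Env (GW p) (kap n) p j (hmk n) hj
      change (1 - q) ^ 2 * ∫⁻ k, ∫⁻ Y, Q k Y ∂(Measure.infinitePi fun _ : ℕ => GW p) ∂p ≤ _ at h6
      have h7 : (1 - z) ^ 2 ≤ (1 - q) ^ 2 := by
        gcongr
        exact hz2 n
      have h8 : (1 - z) ^ 2 * ∫⁻ k, ∫⁻ Y, Q k Y ∂(Measure.infinitePi fun _ : ℕ => GW p) ∂p ≤
          (C : ℝ≥0∞) ^ 2 := by
        refine le_trans (by gcongr) (h6.trans ?_)
        gcongr
        exact hC n
      rw [hP0, ← ENNReal.div_eq_inv_mul]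
      rw [ENNReal.le_div_iff_mul_le (Or.inl (pow_ne_zero 2 hz0)) (Or.inl (by finiteness)),
        mul_comm]
      exact h8
    have h9 : F1 p q ≤ F1 p z := F1_mono p (hz2 n)
    change F1 p q * _ + _ ≤ _
    calc F1 p q * ∫⁻ Z, f Z ∂(GW p) +
          2 ^ m * (1 + ∫⁻ k, ∫⁻ Y, Q k Y ∂(Measure.infinitePi fun _ : ℕ => GW p) ∂p)
        ≤ F1 p z * (((1 + ε : ℝ≥0) : ℝ≥0∞) * B n + C') + 2 ^ m * (1 + P0) := by gcongr
      _ = F1 p z * ((1 + ε : ℝ≥0) : ℝ≥0∞) * B n + (F1 p z * C' + 2 ^ m * (1 + P0)) := by ring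
      _ ≤ ρ * B n + (1 * C' + 2 ^ m * (1 + P0)) := by gcongr
      _ = _ := by rw [one_mul]
  obtain ⟨E, hE'⟩ : ∃ r : ℝ≥0, (r : ℝ≥0∞) = C' + 2 ^ m * (1 + P0) :=
    ⟨(C' + 2 ^ m * (1 + P0) : ℝ≥0∞).toNNReal, ENNReal.coe_toNNReal (by finiteness)⟩
  rw [← hE'] at hstep
  refine ⟨max 1 (E / (1 - ρ)), fun n => ?_⟩
  change B n ≤ _
  induction n with
  | zero =>
    simp only [hB, kap]
    simp
  | succ n ih =>
    refine (hstep n).trans ?_
    refine le_trans (add_le_add_left (mul_le_mul_right ih _) _) ?_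
    rw [← ENNReal.coe_mul, ← ENNReal.coe_add, ENNReal.coe_le_coe]
    set D := max 1 (E / (1 - ρ)) with hD
    have h1 : E ≤ (1 - ρ) * D := by
      have h2 : E / (1 - ρ) ≤ D := le_max_right _ _
      rwa [div_le_iff₀ (tsub_pos_of_lt hρ1), mul_comm] at h2
    calc ρ * D + E ≤ ρ * D + (1 - ρ) * D := by gcongr
      _ = D := by rw [← add_mul, add_tsub_cancel_of_le hρ1.le, one_mul]

end Pool.Agent.W914.FR
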