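import Pool.Agent.W626.FR.Stms
import Pool.Agent.W782.FG.Ind

/-!
# Project FR (MP_0cd4b8_pr, helper626): tasks FR-SING, FR-PAIR, FR-PAIR1
-/

namespace Pool.Agent.W914.FR

open FrogRec MeasureTheory ProbabilityTheory Filter FrogGW
open scoped ENNReal NNReal Classical Topology

section

variable {X : Type} [MeasurableSpace X] (μ : Measure X) [IsProbabilityMeasure μ]

lemma lint_prod (s : Finset ℕ) (a : ℕ → X → ℝ≥0∞) (ha : ∀ i, Measurable (a i)) :
    ∫⁻ Y, ∏ i ∈ s, a i (Y i) ∂(Measure.infinitePi fun _ : ℕ => μ) =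
      ∏ i ∈ s, ∫⁻ x, a i x ∂μ := by
  induction s using Finset.induction_on with
  | empty => simp
  | insert i s hi ih =>
    simp only [Finset.prod_insert hi]
    rw [Pool.Agent.W782.FG.lintegral_indep' μ i (a i) (fun Y => ∏ j ∈ s, a j (Y j)) (ha i) ?_ ?_,
      ih]
    · exact Finset.measurable_prod _ fun j _ => (ha j).comp (measurable_pi_apply j)
    · intro Y Y' h
      refine Finset.prod_congr rfl fun j hj => ?_
      rw [h j (by rintro rfl; exact hi hj)]

end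

lemma sing_k {X : Type} [MeasurableSpace X] (m : Measure X) [IsProbabilityMeasure m]
    (κ : X → ℝ≥0) (f : X → ℝ≥0∞) (hκ : Measurable κ) (hf : Measurable f) (k : ℕ) :
    ∫⁻ Y, ∑ i ∈ Finset.range k,
        (if ∀ j < k, j ≠ i → κ (Y j) = 0 then f (Y i) else 0)
        ∂(Measure.infinitePi fun _ : ℕ => m) =
      ((k : ℝ≥0∞) * m {x | κ x = 0} ^ (k - 1)) * ∫⁻ x, f x ∂m := by
    set q := m {x | κ x = 0} with hq
    have hz : MeasurableSet {x | κ x = 0} := hκ (measurableSet_singleton 0)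
    set a : ℕ → ℕ → X → ℝ≥0∞ := fun i j x => if j = i then f x else
      {x | κ x = 0}.indicator 1 x with ha
    have ham : ∀ i j, Measurable (a i j) := by
      intro i j
      by_cases h : j = i
      · simp only [ha, if_pos h]; exact hf
      · simp only [ha, if_neg h]; exact measurable_one.indicator hz
    have h1 : ∀ Y : ℕ → X, ∀ i ∈ Finset.range k,
        (if ∀ j < k, j ≠ i → κ (Y j) = 0 then f (Y i) else 0) =
        ∏ j ∈ Finset.range k, a i j (Y j) := by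
      intro Y i hi
      rw [← Finset.mul_prod_erase _ _ hi]
      split_ifs with h
      · rw [Finset.prod_eq_one, mul_one]
        · simp [ha]
        · intro j hj
          rw [Finset.mem_erase, Finset.mem_range] at hj
          simp only [ha, if_neg hj.1]
          rw [Set.indicator_of_mem (show Y j ∈ {x | κ x = 0} from h j hj.2 hj.1)]
          rfl
      · push Not at h
        obtain ⟨j, hj1, hj2, hj3⟩ := h
        rw [Finset.prod_eq_zero (i := j), mul_zero]
        · exact Finset.mem_erase.mpr ⟨hj2, Finset.mem_range.mpr hj1⟩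
        · simp only [ha, if_neg hj2]
          rw [Set.indicator_of_notMem (show Y j ∉ {x | κ x = 0} from hj3)]
    have h2 : ∀ Y : ℕ → X, ∑ i ∈ Finset.range k,
        (if ∀ j < k, j ≠ i → κ (Y j) = 0 then f (Y i) else 0) =
        ∑ i ∈ Finset.range k, ∏ j ∈ Finset.range k, a i j (Y j) := fun Y =>
      Finset.sum_congr rfl (h1 Y)
    simp only [h2]
    rw [lintegral_finsetSum]
    swap
    · intro i _
      exact Finset.measurable_prod _ fun j _ => (ham i j).comp (measurable_pi_apply j)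
    have h3 : ∀ i ∈ Finset.range k, ∫⁻ Y : ℕ → X, ∏ j ∈ Finset.range k, a i j (Y j)
        ∂(Measure.infinitePi fun _ : ℕ => m) = q ^ (k - 1) * ∫⁻ x, f x ∂m := by
      intro i hi
      rw [lint_prod m (Finset.range k) (a i) (ham i), ← Finset.mul_prod_erase _ _ hi, mul_comm]
      congr 1
      · rw [Finset.prod_congr rfl (g := fun _ => q), Finset.prod_const, Finset.card_erase_of_mem hi,
          Finset.card_range]
        intro j hj
        rw [Finset.mem_erase] at hj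
        simp only [ha, if_neg hj.1]
        rw [lintegral_indicator_one hz]
      · simp [ha]
    rw [Finset.sum_congr rfl h3, Finset.sum_const, Finset.card_range, nsmul_eq_mul, mul_assoc]

theorem sing : TaskSing := by
  intro X _ m _ κ p _ f hκ hf
  simp only [sing_k m κ f hκ hf]
  rw [lintegral_mul_const _ Measurable.of_discrete, lintegral_countable']
  congr 1
  exact tsum_congr fun k => mul_comm _ _

/-! ### Pairs -/

lemma real_sum (q : ℝ) (k : ℕ) :
    (1 - q) ^ 2 * ∑ b ∈ Finset.range (k + 1), (b : ℝ) * q ^ (b - 1) =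
      1 - (k + 1) * q ^ k + k * q ^ (k + 1) := by
  induction k with
  | zero => simp
  | succ k ih =>
    rw [Finset.sum_range_succ, mul_add, ih]
    push_cast
    ring

lemma real_sum_le (q : ℝ) (h0 : 0 ≤ q) (h1 : q ≤ 1) (k : ℕ) :
    (1 - q) ^ 2 * ∑ b ∈ Finset.range k, (b : ℝ) * q ^ (b - 1) ≤ 1 := by
  rcases k with _ | k
  · simp
  · rw [real_sum]
    have : q ^ (k + 1) ≤ q ^ k := pow_le_pow_of_le_one h0 h1 (Nat.le_succ k)
    have h3 : 0 ≤ q ^ k := by positivity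
    have h4 : (k : ℝ) * q ^ (k + 1) ≤ k * q ^ k := by gcongr
    nlinarith

lemma enn_sum_le (q : ℝ≥0∞) (h1 : q ≤ 1) (k : ℕ) :
    (1 - q) ^ 2 * ∑ b ∈ Finset.range k, (b : ℝ≥0∞) * q ^ (b - 1) ≤ 1 := by
  obtain ⟨r, rfl⟩ : ∃ r : ℝ≥0, q = r := ⟨q.toNNReal, (ENNReal.coe_toNNReal (ne_top_of_le_ne_top ENNReal.one_ne_top h1)).symm⟩
  have hr : r ≤ 1 := by exact_mod_cast h1
  have h2 := real_sum_le r r.2 (by exact_mod_cast hr) k
  have h3 : (1 - r) ^ 2 * ∑ b ∈ Finset.range k, (b : ℝ≥0) * r ^ (b - 1) ≤ 1 := by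
    rw [← NNReal.coe_le_coe]
    push_cast [hr]
    exact h2
  exact_mod_cast h3

lemma pair_pt {X : Type} (κ : X → ℝ≥0) (j k : ℕ) (Y : ℕ → X) :
    (if ∃ a < k, ∃ b < k, a ≠ b ∧ κ (Y a) ≠ 0 ∧ κ (Y b) ≠ 0 then
          ((((∑ l ∈ Finset.range k, κ (Y l))⁻¹) ^ (2 * j) : ℝ≥0) : ℝ≥0∞) else 0) ≤
      ∑ b ∈ Finset.range k, ∑ a ∈ Finset.range b, ∏ l ∈ Finset.range (b + 1),
        (if l = a ∨ l = b then ((((κ (Y l))⁻¹) ^ j : ℝ≥0) : ℝ≥0∞) else
          {x | κ x = 0}.indicator 1 (Y l)) := by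
  split_ifs with h
  swap
  · exact zero_le
  obtain ⟨a', ha', b', hb', hab', hna', hnb'⟩ := h
  have hex : ∃ a, κ (Y a) ≠ 0 := ⟨a', hna'⟩
  set a := Nat.find hex with ha
  have haa : κ (Y a) ≠ 0 := Nat.find_spec hex
  have hamin : ∀ l < a, κ (Y l) = 0 := fun l hl => not_not.mp (Nat.find_min hex hl)
  have hex2 : ∃ b, a < b ∧ κ (Y b) ≠ 0 := by
    have h1 : a ≤ a' := Nat.find_min' hex hna'
    have h2 : a ≤ b' := Nat.find_min' hex hnb'
    rcases lt_or_gt_of_ne hab' with h3 | h3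
    · exact ⟨b', by omega, hnb'⟩
    · exact ⟨a', by omega, hna'⟩
  set b := Nat.find hex2 with hb
  obtain ⟨hab, hbb⟩ : a < b ∧ κ (Y b) ≠ 0 := Nat.find_spec hex2
  have hbmin : ∀ l < b, l ≠ a → κ (Y l) = 0 := by
    intro l hl hla
    rcases lt_or_gt_of_ne hla with h3 | h3
    · exact hamin l h3
    · by_contra hc
      exact Nat.find_min hex2 hl ⟨h3, hc⟩
  have hbk : b < k := by
    have h1 : a ≤ a' := Nat.find_min' hex hna'
    have h2 : a ≤ b' := Nat.find_min' hex hnb'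
    rcases lt_or_gt_of_ne hab' with h3 | h3
    · exact lt_of_le_of_lt (Nat.find_min' hex2 ⟨by omega, hnb'⟩) hb'
    · exact lt_of_le_of_lt (Nat.find_min' hex2 ⟨by omega, hna'⟩) ha'
  refine le_trans ?_ (Finset.single_le_sum (f := fun b => ∑ a ∈ Finset.range b,
    ∏ l ∈ Finset.range (b + 1),
        (if l = a ∨ l = b then ((((κ (Y l))⁻¹) ^ j : ℝ≥0) : ℝ≥0∞) else
          {x | κ x = 0}.indicator 1 (Y l))) (fun _ _ => zero_le) (Finset.mem_range.mpr hbk))
  refine le_trans ?_ (Finset.single_le_sum (f := fun a =>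
    ∏ l ∈ Finset.range (b + 1),
        (if l = a ∨ l = b then ((((κ (Y l))⁻¹) ^ j : ℝ≥0) : ℝ≥0∞) else
          {x | κ x = 0}.indicator 1 (Y l))) (fun _ _ => zero_le) (Finset.mem_range.mpr hab))
  have hS : ∀ i < k, κ (Y i) ≤ ∑ l ∈ Finset.range k, κ (Y l) := fun i hi =>
    Finset.single_le_sum (f := fun l => κ (Y l)) (fun _ _ => zero_le) (Finset.mem_range.mpr hi)
  have h1 : ∏ l ∈ Finset.range (b + 1),
        (if l = a ∨ l = b then ((((κ (Y l))⁻¹) ^ j : ℝ≥0) : ℝ≥0∞) else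
          {x | κ x = 0}.indicator 1 (Y l)) =
        ((((κ (Y b))⁻¹) ^ j : ℝ≥0) : ℝ≥0∞) * ((((κ (Y a))⁻¹) ^ j : ℝ≥0) : ℝ≥0∞) := by
    rw [Finset.prod_range_succ, if_pos (Or.inr rfl), mul_comm]
    congr 1
    rw [← Finset.mul_prod_erase _ _ (Finset.mem_range.mpr hab), if_pos (Or.inl rfl)]
    rw [Finset.prod_eq_one, mul_one]
    intro l hl
    rw [Finset.mem_erase, Finset.mem_range] at hl
    rw [if_neg (by rintro (h | h); exacts [hl.1 h, hl.2.ne h]),
      Set.indicator_of_mem (show Y l ∈ {x | κ x = 0} from hbmin l hl.2 hl.1)]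
    rfl
  rw [h1, ← ENNReal.coe_mul, ENNReal.coe_le_coe, two_mul, pow_add]
  have hb2 := hS b hbk
  have ha2 := hS a (hab.trans hbk)
  have hb3 : 0 < κ (Y b) := pos_iff_ne_zero.mpr hbb
  have ha3 : 0 < κ (Y a) := pos_iff_ne_zero.mpr haa
  gcongr

theorem pair : TaskPair := by
  intro X _ m _ κ p _ j hκ hj
  set q := m {x | κ x = 0} with hq
  have hz : MeasurableSet {x | κ x = 0} := hκ (measurableSet_singleton 0)
  set g : X → ℝ≥0∞ := fun x => ((((κ x)⁻¹) ^ j : ℝ≥0) : ℝ≥0∞) with hg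
  have hgm : Measurable g := measurable_coe_nnreal_ennreal.comp (hκ.inv.pow_const j)
  have hk : ∀ k : ℕ, (1 - q) ^ 2 * ∫⁻ Y,
        (if ∃ a < k, ∃ b < k, a ≠ b ∧ κ (Y a) ≠ 0 ∧ κ (Y b) ≠ 0 then
          ((((∑ l ∈ Finset.range k, κ (Y l))⁻¹) ^ (2 * j) : ℝ≥0) : ℝ≥0∞) else 0)
        ∂(Measure.infinitePi fun _ : ℕ => m) ≤ (∫⁻ x, g x ∂m) ^ 2 := by
    intro k
    set A : ℕ → ℕ → ℕ → X → ℝ≥0∞ := fun b a l x => if l = a ∨ l = b then g x else
          {x | κ x = 0}.indicator 1 x with hA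
    have hAm : ∀ b a l, Measurable (A b a l) := by
      intro b a l
      by_cases h : l = a ∨ l = b
      · simp only [hA, if_pos h]; exact hgm
      · simp only [hA, if_neg h]; exact measurable_one.indicator hz
    have hPm : ∀ b a, Measurable fun Y : ℕ → X => ∏ l ∈ Finset.range (b + 1), A b a l (Y l) :=
      fun b a => Finset.measurable_prod _ fun l _ => (hAm b a l).comp (measurable_pi_apply l)
    have h1 : ∫⁻ Y : ℕ → X,
        (if ∃ a < k, ∃ b < k, a ≠ b ∧ κ (Y a) ≠ 0 ∧ κ (Y b) ≠ 0 then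
          ((((∑ l ∈ Finset.range k, κ (Y l))⁻¹) ^ (2 * j) : ℝ≥0) : ℝ≥0∞) else 0)
        ∂(Measure.infinitePi fun _ : ℕ => m) ≤
        ∑ b ∈ Finset.range k, (b : ℝ≥0∞) * q ^ (b - 1) * (∫⁻ x, g x ∂m) ^ 2 := by
      refine (lintegral_mono (fun Y => pair_pt κ j k Y)).trans (le_of_eq ?_)
      change ∫⁻ Y : ℕ → X, ∑ b ∈ Finset.range k, ∑ a ∈ Finset.range b,
        ∏ l ∈ Finset.range (b + 1), A b a l (Y l) ∂(Measure.infinitePi fun _ : ℕ => m) = _
      rw [lintegral_finsetSum]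
      swap
      · exact fun b _ => Finset.measurable_sum _ fun a _ => hPm b a
      refine Finset.sum_congr rfl fun b _ => ?_
      rw [lintegral_finsetSum]
      swap
      · exact fun a _ => hPm b a
      have h2 : ∀ a ∈ Finset.range b, ∫⁻ Y : ℕ → X, ∏ l ∈ Finset.range (b + 1), A b a l (Y l)
          ∂(Measure.infinitePi fun _ : ℕ => m) = q ^ (b - 1) * (∫⁻ x, g x ∂m) ^ 2 := by
        intro a hab
        rw [lint_prod m _ _ (hAm b a), Finset.prod_range_succ, ← Finset.mul_prod_erase _ _ hab]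
        have h3 : ∫⁻ x, A b a b x ∂m = ∫⁻ x, g x ∂m := by
          simp only [hA, or_true, if_true]
        have h4 : ∫⁻ x, A b a a x ∂m = ∫⁻ x, g x ∂m := by
          simp only [hA, true_or, if_true]
        rw [h3, h4, Finset.prod_congr rfl (g := fun _ => q), Finset.prod_const,
          Finset.card_erase_of_mem hab, Finset.card_range]
        · ring
        · intro l hl
          rw [Finset.mem_erase, Finset.mem_range] at hl
          have h5 : ¬ (l = a ∨ l = b) := by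
            rintro (h | h); exacts [hl.1 h, hl.2.ne h]
          simp only [hA, if_neg h5]
          rw [lintegral_indicator_one hz]
      rw [Finset.sum_congr rfl h2, Finset.sum_const, Finset.card_range, nsmul_eq_mul, mul_assoc]
    calc _ ≤ (1 - q) ^ 2 * ∑ b ∈ Finset.range k, (b : ℝ≥0∞) * q ^ (b - 1) *
          (∫⁻ x, g x ∂m) ^ 2 := by gcongr
      _ = ((1 - q) ^ 2 * ∑ b ∈ Finset.range k, (b : ℝ≥0∞) * q ^ (b - 1)) *
          (∫⁻ x, g x ∂m) ^ 2 := by rw [← Finset.sum_mul, mul_assoc]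
      _ ≤ 1 * (∫⁻ x, g x ∂m) ^ 2 := by
          gcongr
          exact enn_sum_le q prob_le_one k
      _ = _ := one_mul _
  rw [← lintegral_const_mul _ Measurable.of_discrete]
  refine (lintegral_mono hk).trans ?_
  simp [hg]

/-! ### First moment -/

/-- weights -/
noncomputable def cc (n : ℕ) : ℝ≥0 := if 2 ≤ n then 2 / (n : ℝ≥0) ^ 2 else 0

lemma cc_mul (n : ℕ) : cc n * n ≤ 1 := by
  unfold cc
  split_ifs with h
  · have h1 : (0 : ℝ≥0) < n := by exact_mod_cast (by omega : 0 < n)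
    have h2 : (2 : ℝ≥0) ≤ n := by exact_mod_cast h
    rw [sq, div_mul_eq_mul_div, mul_comm (n : ℝ≥0) n, mul_div_mul_right _ _ h1.ne',
      div_le_one h1]
    exact h2
  · simp

/-- positive indices -/
noncomputable def pos {X : Type} (κ : X → ℝ≥0) (s : Finset ℕ) (Y : ℕ → X) : Finset ℕ :=
  s.filter fun l => κ (Y l) ≠ 0

lemma pos_erase {X : Type} (κ : X → ℝ≥0) (s : Finset ℕ) (Y : ℕ → X) (i : ℕ) (hi : i ∈ s)
    (h : κ (Y i) ≠ 0) : (pos κ (s.erase i) Y).card + 1 = (pos κ s Y).card := by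
  unfold pos
  rw [Finset.filter_erase, Finset.card_erase_add_one]
  exact Finset.mem_filter.mpr ⟨hi, h⟩

lemma pair1_pt {X : Type} (κ : X → ℝ≥0) (k : ℕ) (Y : ℕ → X) :
    2 * (if ∃ a < k, ∃ b < k, a ≠ b ∧ κ (Y a) ≠ 0 ∧ κ (Y b) ≠ 0 then
          (∑ l ∈ Finset.range k, κ (Y l))⁻¹ else 0) ≤
      ∑ i ∈ Finset.range k, (κ (Y i))⁻¹ * cc ((pos κ ((Finset.range k).erase i) Y).card + 1) := by
  split_ifs with h
  swap
  · simp
  obtain ⟨a, ha, b, hb, hab, hna, hnb⟩ := h
  set U := pos κ (Finset.range k) Y with hU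
  have haU : a ∈ U := Finset.mem_filter.mpr ⟨Finset.mem_range.mpr ha, hna⟩
  have hbU : b ∈ U := Finset.mem_filter.mpr ⟨Finset.mem_range.mpr hb, hnb⟩
  have h2 : 2 ≤ U.card := Finset.one_lt_card.mpr ⟨a, haU, b, hbU, hab⟩
  have h3 : ∑ i ∈ U, (κ (Y i))⁻¹ * cc U.card ≤
      ∑ i ∈ Finset.range k, (κ (Y i))⁻¹ * cc ((pos κ ((Finset.range k).erase i) Y).card + 1) := by
    refine le_trans (le_of_eq ?_) (Finset.sum_le_sum_of_subset
      (show U ⊆ Finset.range k from Finset.filter_subset _ _))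
    refine Finset.sum_congr rfl fun i hi => ?_
    obtain ⟨hi1, hi2⟩ := Finset.mem_filter.mp hi
    rw [pos_erase κ _ Y i hi1 hi2]
  refine le_trans ?_ h3
  have hS : ∑ l ∈ Finset.range k, κ (Y l) = ∑ l ∈ U, κ (Y l) := by
    rw [hU, pos, Finset.sum_filter]
    refine Finset.sum_congr rfl fun l _ => ?_
    split_ifs with h
    · rfl
    · exact not_not.mp h
  rw [hS]
  have hS0 : ∑ l ∈ U, κ (Y l) ≠ 0 := by
    intro h0
    exact hna ((Finset.sum_eq_zero_iff.mp h0) a haU)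
  have hCS := Finset.sum_sq_le_sum_mul_sum_of_sq_le_mul U (r := fun _ => (1 : ℝ≥0))
    (f := fun l => κ (Y l)) (g := fun l => (κ (Y l))⁻¹) (fun _ _ => zero_le) (fun _ _ => zero_le)
    (fun l hl => by
      have : κ (Y l) ≠ 0 := (Finset.mem_filter.mp hl).2
      simp [this])
  simp only [Finset.sum_const, nsmul_eq_mul, mul_one] at hCS
  have hc0 : (U.card : ℝ≥0) ≠ 0 := by
    have : U.card ≠ 0 := by omega
    exact_mod_cast this
  rw [← Finset.sum_mul, cc, if_pos h2]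
  rw [inv_eq_one_div, mul_one_div, div_le_iff₀ (pos_iff_ne_zero.mpr hS0)]
  rw [mul_assoc, div_mul_eq_mul_div, ← mul_div_assoc, le_div_iff₀ (by positivity)]
  calc 2 * (U.card : ℝ≥0) ^ 2 ≤ 2 * ((∑ l ∈ U, κ (Y l)) * ∑ l ∈ U, (κ (Y l))⁻¹) := by gcongr
    _ = _ := by ring


lemma pair1_tri {X : Type} (κ : X → ℝ≥0) (k : ℕ) (Y : ℕ → X) :
    (∑ i ∈ Finset.range k, {x | κ x ≠ 0}.indicator (fun _ => (1 : ℝ≥0∞)) (Y i) *
      (cc ((pos κ ((Finset.range k).erase i) Y).card + 1) : ℝ≥0)) +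
    (∏ l ∈ Finset.range k, {x | κ x = 0}.indicator (fun _ => (1 : ℝ≥0∞)) (Y l)) +
    (∑ i ∈ Finset.range k, if ∀ j < k, j ≠ i → κ (Y j) = 0 then
      {x | κ x ≠ 0}.indicator (fun _ => (1 : ℝ≥0∞)) (Y i) else 0) ≤ 1 := by
  set U := pos κ (Finset.range k) Y with hU
  have hmem : ∀ i, i ∈ U ↔ i < k ∧ κ (Y i) ≠ 0 := by
    intro i
    rw [hU, pos, Finset.mem_filter, Finset.mem_range]
  have h1 : (∑ i ∈ Finset.range k, {x | κ x ≠ 0}.indicator (fun _ => (1 : ℝ≥0∞)) (Y i) *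
      (cc ((pos κ ((Finset.range k).erase i) Y).card + 1) : ℝ≥0)) =
      ((cc U.card * U.card : ℝ≥0) : ℝ≥0∞) := by
    have h2 : ∀ i ∈ Finset.range k, {x | κ x ≠ 0}.indicator (fun _ => (1 : ℝ≥0∞)) (Y i) *
      ((cc ((pos κ ((Finset.range k).erase i) Y).card + 1) : ℝ≥0) : ℝ≥0∞) =
      if i ∈ U then (cc U.card : ℝ≥0∞) else 0 := by
      intro i hi
      by_cases h : κ (Y i) = 0
      · rw [Set.indicator_of_notMem (by simpa using h), zero_mul, if_neg]
        rw [hmem]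
        exact fun hc => hc.2 h
      · rw [Set.indicator_of_mem (show Y i ∈ {x | κ x ≠ 0} from h), one_mul,
          if_pos ((hmem i).mpr ⟨Finset.mem_range.mp hi, h⟩), pos_erase κ _ Y i hi h]
    rw [Finset.sum_congr rfl h2, ← Finset.sum_filter, Finset.sum_const, nsmul_eq_mul]
    have h3 : (Finset.range k).filter (fun i => i ∈ U) = U := by
      ext i
      rw [Finset.mem_filter, Finset.mem_range]
      exact ⟨fun h => h.2, fun h => ⟨((hmem i).mp h).1, h⟩⟩
    rw [h3]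
    push_cast
    rw [mul_comm]
  rw [h1]
  by_cases h2 : 2 ≤ U.card
  · obtain ⟨a, ha, b, hb, hab⟩ := Finset.one_lt_card.mp h2
    rw [hmem] at ha hb
    have h3 : ∏ l ∈ Finset.range k, {x | κ x = 0}.indicator (fun _ => (1 : ℝ≥0∞)) (Y l) = 0 := by
      apply Finset.prod_eq_zero (Finset.mem_range.mpr ha.1)
      exact Set.indicator_of_notMem (show Y a ∉ {x | κ x = 0} from ha.2) _
    have h4 : (∑ i ∈ Finset.range k, if ∀ j < k, j ≠ i → κ (Y j) = 0 then
        {x | κ x ≠ 0}.indicator (fun _ => (1 : ℝ≥0∞)) (Y i) else 0) = 0 := by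
      apply Finset.sum_eq_zero
      intro i _
      rw [if_neg]
      intro hc
      by_cases hai : a = i
      · exact hb.2 (hc b hb.1 (by rw [← hai]; exact hab.symm))
      · exact ha.2 (hc a ha.1 hai)
    rw [h3, h4, add_zero, add_zero]
    exact_mod_cast cc_mul _
  · have h5 : cc U.card = 0 := by
      rw [cc, if_neg h2]
    rw [h5, zero_mul, ENNReal.coe_zero, zero_add]
    by_cases h6 : U.card = 0
    · have hz : ∀ i < k, κ (Y i) = 0 := by
        intro i hi
        by_contra hc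
        have := (hmem i).mpr ⟨hi, hc⟩
        rw [Finset.card_eq_zero.mp h6] at this
        simp at this
      have h4 : (∑ i ∈ Finset.range k, if ∀ j < k, j ≠ i → κ (Y j) = 0 then
          {x | κ x ≠ 0}.indicator (fun _ => (1 : ℝ≥0∞)) (Y i) else 0) = 0 := by
        apply Finset.sum_eq_zero
        intro i hi
        have := hz i (Finset.mem_range.mp hi)
        simp [this]
      rw [h4, add_zero]
      apply Finset.prod_le_one'
      intro i _
      exact Set.indicator_le_self' (by simp) _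
    · have h7 : U.card = 1 := by omega
      obtain ⟨a, ha⟩ := Finset.card_eq_one.mp h7
      have haU : a ∈ U := by rw [ha]; exact Finset.mem_singleton_self a
      rw [hmem] at haU
      have h3 : ∏ l ∈ Finset.range k, {x | κ x = 0}.indicator (fun _ => (1 : ℝ≥0∞)) (Y l) = 0 := by
        apply Finset.prod_eq_zero (Finset.mem_range.mpr haU.1)
        exact Set.indicator_of_notMem (show Y a ∉ {x | κ x = 0} from haU.2) _
      rw [h3, zero_add, Finset.sum_eq_single_of_mem a (Finset.mem_range.mpr haU.1)]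
      · split_ifs
        · exact Set.indicator_le_self' (by simp) _
        · exact zero_le
      · intro i hi hia
        split_ifs with hc
        · exact absurd (hc a haU.1 hia.symm) haU.2
        · rfl

theorem pair1 : TaskPair1 := by
  intro X _ m _ κ p _ hκ
  set q := m {x | κ x = 0} with hq
  have hz : MeasurableSet {x | κ x = 0} := hκ (measurableSet_singleton 0)
  have hnz : MeasurableSet {x | κ x ≠ 0} := hz.compl
  have hq' : m {x | κ x ≠ 0} = 1 - q := by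
    have : {x | κ x ≠ 0} = {x | κ x = 0}ᶜ := rfl
    rw [this, prob_compl_eq_one_sub hz]
  set I : ℝ≥0∞ := ∫⁻ x, (((κ x)⁻¹ : ℝ≥0) : ℝ≥0∞) ∂m with hI
  set P := Measure.infinitePi fun _ : ℕ => m with hP
  set W : ℕ → (ℕ → X) → ℝ≥0∞ := fun k Y => ∑ i ∈ Finset.range k,
    {x | κ x ≠ 0}.indicator (fun _ => (1 : ℝ≥0∞)) (Y i) *
      (cc ((pos κ ((Finset.range k).erase i) Y).card + 1) : ℝ≥0) with hW
  -- measurability of the weights
  have hcm : ∀ s : Finset ℕ, Measurable fun Y : ℕ → X => (pos κ s Y).card := by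
    intro s
    have h1 : (fun Y : ℕ → X => (pos κ s Y).card) = fun Y => ∑ i ∈ s,
        {x | κ x ≠ 0}.indicator (fun _ => 1) (Y i) := by
      funext Y
      rw [pos, Finset.card_filter]
      refine Finset.sum_congr rfl fun i _ => ?_
      by_cases h : κ (Y i) = 0 <;> simp [h]
    rw [h1]
    exact Finset.measurable_sum _ fun i _ =>
      (measurable_const.indicator hnz).comp (measurable_pi_apply i)
  have hcm2 : ∀ s : Finset ℕ, Measurable fun Y : ℕ → X =>
      ((cc ((pos κ s Y).card + 1) : ℝ≥0) : ℝ≥0∞) := fun s =>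
    (Measurable.of_discrete (f := fun n : ℕ => ((cc (n + 1) : ℝ≥0) : ℝ≥0∞))).comp (hcm s)
  have hdep : ∀ (s : Finset ℕ) (i : ℕ), i ∉ s → ∀ Y Y' : ℕ → X, (∀ l, l ≠ i → Y l = Y' l) →
      ((cc ((pos κ s Y).card + 1) : ℝ≥0) : ℝ≥0∞) = ((cc ((pos κ s Y').card + 1) : ℝ≥0) : ℝ≥0∞) := by
    intro s i hi Y Y' h
    have : pos κ s Y = pos κ s Y' := by
      unfold pos
      refine Finset.filter_congr fun l hl => ?_
      rw [h l (by rintro rfl; exact hi hl)]
    rw [this]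
  have hkm : Measurable fun x => (((κ x)⁻¹ : ℝ≥0) : ℝ≥0∞) :=
    measurable_coe_nnreal_ennreal.comp hκ.inv
  have him : Measurable ({x | κ x ≠ 0}.indicator (fun _ => (1 : ℝ≥0∞))) :=
    measurable_const.indicator hnz
  have h1 : ∀ k, 2 * (1 - q) * ∫⁻ Y,
        (if ∃ a < k, ∃ b < k, a ≠ b ∧ κ (Y a) ≠ 0 ∧ κ (Y b) ≠ 0 then
          (((∑ l ∈ Finset.range k, κ (Y l))⁻¹ : ℝ≥0) : ℝ≥0∞) else 0) ∂P ≤
        I * ∫⁻ Y, W k Y ∂P := by
    intro k
    have h2 : 2 * ∫⁻ Y,
        (if ∃ a < k, ∃ b < k, a ≠ b ∧ κ (Y a) ≠ 0 ∧ κ (Y b) ≠ 0 then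
          (((∑ l ∈ Finset.range k, κ (Y l))⁻¹ : ℝ≥0) : ℝ≥0∞) else 0) ∂P ≤
        ∑ i ∈ Finset.range k, I * ∫⁻ Y,
          ((cc ((pos κ ((Finset.range k).erase i) Y).card + 1) : ℝ≥0) : ℝ≥0∞) ∂P := by
      rw [← lintegral_const_mul' _ _ (by finiteness)]
      have h3 : ∀ Y : ℕ → X, 2 * (if ∃ a < k, ∃ b < k, a ≠ b ∧ κ (Y a) ≠ 0 ∧ κ (Y b) ≠ 0 then
          (((∑ l ∈ Finset.range k, κ (Y l))⁻¹ : ℝ≥0) : ℝ≥0∞) else 0) ≤
          ∑ i ∈ Finset.range k, (((κ (Y i))⁻¹ : ℝ≥0) : ℝ≥0∞) *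
            ((cc ((pos κ ((Finset.range k).erase i) Y).card + 1) : ℝ≥0) : ℝ≥0∞) := by
        intro Y
        have := ENNReal.coe_le_coe.mpr (pair1_pt κ k Y)
        rw [ENNReal.coe_mul, ENNReal.ofNNReal_finsetSum] at this
        simp only [ENNReal.coe_mul] at this
        refine le_trans (le_of_eq ?_) this
        split_ifs <;> simp
      refine (lintegral_mono h3).trans (le_of_eq ?_)
      rw [lintegral_finsetSum]
      swap
      · exact fun i _ => (hkm.comp (measurable_pi_apply i)).mul (hcm2 _)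
      refine Finset.sum_congr rfl fun i _ => ?_
      exact Pool.Agent.W782.FG.lintegral_indep' m i (fun x => (((κ x)⁻¹ : ℝ≥0) : ℝ≥0∞))
        (fun Y => ((cc ((pos κ ((Finset.range k).erase i) Y).card + 1) : ℝ≥0) : ℝ≥0∞)) hkm
        (hcm2 _) (hdep _ i (Finset.notMem_erase i _))
    have h4 : ∫⁻ Y, W k Y ∂P = ∑ i ∈ Finset.range k, (1 - q) * ∫⁻ Y,
          ((cc ((pos κ ((Finset.range k).erase i) Y).card + 1) : ℝ≥0) : ℝ≥0∞) ∂P := by
      simp only [hW]
      rw [lintegral_finsetSum]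
      swap
      · exact fun i _ => (him.comp (measurable_pi_apply i)).mul (hcm2 _)
      refine Finset.sum_congr rfl fun i _ => ?_
      rw [Pool.Agent.W782.FG.lintegral_indep' m i ({x | κ x ≠ 0}.indicator (fun _ => (1 : ℝ≥0∞)))
        (fun Y => ((cc ((pos κ ((Finset.range k).erase i) Y).card + 1) : ℝ≥0) : ℝ≥0∞)) him
        (hcm2 _) (hdep _ i (Finset.notMem_erase i _))]
      rw [lintegral_indicator_const hnz, one_mul, hq']
    rw [h4, ← Finset.mul_sum]
    rw [← Finset.mul_sum] at h2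
    calc _ = (1 - q) * (2 * ∫⁻ Y,
        (if ∃ a < k, ∃ b < k, a ≠ b ∧ κ (Y a) ≠ 0 ∧ κ (Y b) ≠ 0 then
          (((∑ l ∈ Finset.range k, κ (Y l))⁻¹ : ℝ≥0) : ℝ≥0∞) else 0) ∂P) := by ring
      _ ≤ (1 - q) * (I * ∑ i ∈ Finset.range k, ∫⁻ Y,
          ((cc ((pos κ ((Finset.range k).erase i) Y).card + 1) : ℝ≥0) : ℝ≥0∞) ∂P) := by
          gcongr
      _ = _ := by ring
  have hWm : ∀ k, Measurable (W k) := fun k => Finset.measurable_sum _ fun i _ =>
    (him.comp (measurable_pi_apply i)).mul (hcm2 _)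
  have h5 : ∀ k, ∫⁻ Y, W k Y ∂P + q ^ k + ((k : ℝ≥0∞) * q ^ (k - 1)) * (1 - q) ≤ 1 := by
    intro k
    have h6 := sing_k m κ ({x | κ x ≠ 0}.indicator (fun _ => (1 : ℝ≥0∞))) hκ him k
    rw [lintegral_indicator_const hnz, one_mul, hq'] at h6
    have h7 := lint_prod m (Finset.range k) (fun _ => {x | κ x = 0}.indicator (fun _ => (1 : ℝ≥0∞)))
      (fun _ => measurable_const.indicator hz)
    rw [Finset.prod_const, lintegral_indicator_const hz, one_mul, Finset.card_range] at h7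
    rw [← h6, ← h7]
    have hprodm : Measurable fun Y : ℕ → X => ∏ l ∈ Finset.range k,
        {x | κ x = 0}.indicator (fun _ => (1 : ℝ≥0∞)) (Y l) :=
      Finset.measurable_prod _ fun l _ =>
        (measurable_const.indicator hz).comp (measurable_pi_apply l)
    have hadd : Measurable fun Y : ℕ → X => W k Y + ∏ l ∈ Finset.range k,
        {x | κ x = 0}.indicator (fun _ => (1 : ℝ≥0∞)) (Y l) := (hWm k).add hprodm
    rw [← lintegral_add_left (hWm k), ← lintegral_add_left hadd]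
    refine (lintegral_mono (fun Y => pair1_tri κ k Y)).trans ?_
    simp
  have h8 : ∫⁻ k, ∫⁻ Y, W k Y ∂P ∂p + (∑' k, p {k} * q ^ k) +
      (∑' k, p {k} * ((k : ℝ≥0∞) * q ^ (k - 1))) * (1 - q) ≤ 1 := by
    have h9 : ∑' k, p {k} * q ^ k = ∫⁻ k, q ^ k ∂p := by
      rw [lintegral_countable']
      exact tsum_congr fun k => mul_comm _ _
    have h10 : (∑' k, p {k} * ((k : ℝ≥0∞) * q ^ (k - 1))) * (1 - q) =
        ∫⁻ k : ℕ, ((k : ℝ≥0∞) * q ^ (k - 1)) * (1 - q) ∂p := by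
      rw [lintegral_mul_const _ Measurable.of_discrete, lintegral_countable']
      congr 1
      exact tsum_congr fun k => mul_comm _ _
    rw [h9, h10, ← lintegral_add_left Measurable.of_discrete,
      ← lintegral_add_left Measurable.of_discrete]
    refine (lintegral_mono h5).trans ?_
    simp
  set a1 := ∑' k, p {k} * q ^ k with ha1
  set a2 := (∑' k, p {k} * ((k : ℝ≥0∞) * q ^ (k - 1))) * (1 - q) with ha2
  have h11 : ∫⁻ k, ∫⁻ Y, W k Y ∂P ∂p ≤ 1 - a1 - a2 := by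
    have ht1 : a1 ≠ ∞ := by
      refine ne_top_of_le_ne_top ENNReal.one_ne_top (le_trans ?_ h8)
      exact le_trans le_add_self le_self_add
    have ht2 : a2 ≠ ∞ := by
      refine ne_top_of_le_ne_top ENNReal.one_ne_top (le_trans ?_ h8)
      exact le_add_self
    apply ENNReal.le_sub_of_add_le_right ht2
    apply ENNReal.le_sub_of_add_le_right ht1
    refine le_trans (le_of_eq ?_) h8
    ring
  calc _ = ∫⁻ k, 2 * (1 - q) * ∫⁻ Y,
        (if ∃ a < k, ∃ b < k, a ≠ b ∧ κ (Y a) ≠ 0 ∧ κ (Y b) ≠ 0 then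
          (((∑ l ∈ Finset.range k, κ (Y l))⁻¹ : ℝ≥0) : ℝ≥0∞) else 0) ∂P ∂p := by
        rw [lintegral_const_mul _ Measurable.of_discrete]
    _ ≤ ∫⁻ k, I * ∫⁻ Y, W k Y ∂P ∂p := lintegral_mono h1
    _ = I * ∫⁻ k, ∫⁻ Y, W k Y ∂P ∂p := lintegral_const_mul _ Measurable.of_discrete
    _ ≤ I * (1 - a1 - a2) := by gcongr
    _ = _ := mul_comm _ _

end Pool.Agent.W914.FR
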